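import Mathlib
import Pool.Agent.Q90.RB.Main
import Pool.Agent.W63.REQ2SURL
import Pool.Agent.W378.REQ2INJ

set_option autoImplicit false

/-!
# Every rational map is a limit of rational maps of the same degree which attract all points outside
its Julia set and its Herman rings

Let `f` be a rational map of degree `d ≥ 2`. There are rational maps `f_n` of degree `d` whose
coefficients converge to those of `f` such that every point of the basins of the attracting and
parabolic cycles of `f`, and every point which is mapped into a Siegel disc, is in the basin of an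
attracting cycle of `f_n` for all large `n`, with the exception of countably many points. The upper
limit of the spherical areas of the sets of points which are not attracted by cycles of `f_n` is at
most the spherical area of the union of the Julia set of `f` and the preimages of the Herman rings.
(A rational map is hyperbolic if and only if all its critical points are attracted; for a hyperbolic
map the non-attracted area is zero.)

Proof: the perturbation theorem of the starting files (`Pool.Agent.W342.RE.PTW`, a step of the proof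
of `AreaDistance`) makes the indifferent cycles of bounded period attracting at the same time, along
a curve on which all multipliers are multiplied by real numbers. It rests on the solvability of the
linearized equations for the cycles and multipliers. A dimension count shows that this also bounds
the number of all indifferent cycles (by `2 d + 1`), so that all of them can be treated at once.
-/

open Topology Filter MeasureTheory Metric

namespace Pool.Agent.Results.MP_8f2e1c_an.IndifferentBasins

/-- `f` is the rational map `P / Q` on the Riemann sphere. -/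
def IsRationalMap (P Q : Polynomial ℂ) (f : OnePoint ℂ → OnePoint ℂ) : Prop :=
  Continuous f ∧ ∀ z : ℂ, Q.eval z ≠ 0 →
    f (OnePoint.some z) = OnePoint.some (P.eval z / Q.eval z)

/-- `a` is a point of an attracting cycle of `f` whose period divides `n`: `f^n` fixes `a` and the
iterates of `f^n` converge to `a` uniformly on a neighbourhood of `a`. -/
def IsSink (f : OnePoint ℂ → OnePoint ℂ) (n : ℕ) (a : OnePoint ℂ) : Prop :=
  0 < n ∧ f^[n] a = a ∧
    ∃ U ∈ nhds a, ∀ V ∈ nhds a, ∀ᶠ k : ℕ in Filter.atTop, ∀ w ∈ U, f^[n * k] w ∈ V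

/-- `z` is in the basin of an attracting cycle of `f`. -/
def Attracted (f : OnePoint ℂ → OnePoint ℂ) (z : OnePoint ℂ) : Prop :=
  ∃ (n : ℕ) (a : OnePoint ℂ), IsSink f n a ∧
    Filter.Tendsto (fun k : ℕ => f^[n * k] z) Filter.atTop (nhds a)

/-- A local coordinate at the point `a` of the sphere, with `chart a 0 = a`: for `a = ∞` it is
`w ↦ 1 / w`, and for a point `a` of the plane it is `w ↦ a + w`. -/
noncomputable def chart (a : OnePoint ℂ) (w : ℂ) : OnePoint ℂ :=
  match a with
  | none => open Classical in if w = 0 then OnePoint.infty else OnePoint.some w⁻¹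
  | some a => OnePoint.some (a + w)

/-- `f^p` fixes `a`, with multiplier `ρ` (the derivative of `f^p` at `a` in the local
coordinate). -/
def HasMultiplier (f : OnePoint ℂ → OnePoint ℂ) (p : ℕ) (a : OnePoint ℂ) (ρ : ℂ) : Prop :=
  ∃ g : ℂ → ℂ, g 0 = 0 ∧ HasDerivAt g ρ 0 ∧
    ∀ᶠ w in nhds (0 : ℂ), f^[p] (chart a w) = chart a (g w)

/-- `z` is in the basin of a parabolic cycle: for some `p` the points `f^(p k) (z)` converge to a
fixed point `a` of `f^p` of multiplier `1`, and are different from `a`. -/
def ParabolicBasin (f : OnePoint ℂ → OnePoint ℂ) (z : OnePoint ℂ) : Prop :=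
  ∃ (p : ℕ) (a : OnePoint ℂ), 0 < p ∧ HasMultiplier f p a 1 ∧
    Filter.Tendsto (fun k : ℕ => f^[p * k] z) Filter.atTop (nhds a) ∧ ∀ k : ℕ, f^[p * k] z ≠ a

/-- `h` is a holomorphic map from the disc of radius `r` to the sphere. -/
def HolomorphicOnDisc (h : ℂ → OnePoint ℂ) (r : ℝ) : Prop :=
  ∀ w₀ ∈ ball (0 : ℂ) r, ∃ g : ℂ → ℂ, AnalyticAt ℂ g w₀ ∧
    ∀ᶠ w in nhds w₀, h w = chart (h w₀) (g w)

/-- `z` is mapped by some iterate of `f` into a Siegel disc: an injective holomorphic map `h` of a
disc to the sphere conjugates `f^p` to an irrational rotation. -/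
def SiegelBasin (f : OnePoint ℂ → OnePoint ℂ) (z : OnePoint ℂ) : Prop :=
  ∃ (n p : ℕ) (r : ℝ) (ρ : ℂ) (h : ℂ → OnePoint ℂ), 0 < p ∧ 0 < r ∧ ‖ρ‖ = 1 ∧
    (∀ m : ℕ, 0 < m → ρ ^ m ≠ 1) ∧ HolomorphicOnDisc h r ∧ Set.InjOn h (ball 0 r) ∧
    (∀ w ∈ ball (0 : ℂ) r, f^[p] (h w) = h (ρ * w)) ∧ f^[n] z ∈ h '' ball 0 r

/-- The points of the plane which are not in the basin of an attracting or parabolic cycle and are
not mapped into a Siegel disc. By the classification of the Fatou components this is the part in
the plane of the union of the Julia set and the preimages of the Herman rings. -/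
def JuliaHerman (f : OnePoint ℂ → OnePoint ℂ) : Set ℂ :=
  {z : ℂ | ¬ Attracted f (OnePoint.some z) ∧ ¬ ParabolicBasin f (OnePoint.some z) ∧
    ¬ SiegelBasin f (OnePoint.some z)}

/-- Spherical area. -/
noncomputable def sphericalArea (E : Set ℂ) : ENNReal :=
  ∫⁻ z in E, ENNReal.ofReal (1 / (1 + ‖z‖ ^ 2) ^ 2)

open Pool.Agent.H790R3.RB in
/-- Let `f = P / Q` be a rational map of degree `d ≥ 2`. There are rational maps
`f_n = P_n / Q_n` of degree `d` with coefficients converging to those of `P / Q` such that

(1) outside a countable set, every point of the plane which is not in `JuliaHerman f` is in the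
basin of an attracting cycle of `f_n` for all large `n`;

(2) for every `ε > 0` and all large `n` the spherical area of the set of the points which are not in
the basin of an attracting cycle of `f_n` is at most that of `JuliaHerman f` plus `ε`. -/
theorem result (d : ℕ) (hd : 2 ≤ d) (P Q : Polynomial ℂ) (hPQ : IsCoprime P Q)
    (hdeg : max P.natDegree Q.natDegree = d) (f : OnePoint ℂ → OnePoint ℂ)
    (hf : IsRationalMap P Q f) :
    ∃ (p q : ℕ → Polynomial ℂ) (g : ℕ → OnePoint ℂ → OnePoint ℂ),
      (∀ n, IsCoprime (p n) (q n) ∧ max (p n).natDegree (q n).natDegree = d ∧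
        IsRationalMap (p n) (q n) (g n)) ∧
      (∀ i : ℕ, Tendsto (fun n => (p n).coeff i) atTop (𝓝 (P.coeff i)) ∧
        Tendsto (fun n => (q n).coeff i) atTop (𝓝 (Q.coeff i))) ∧
      (∃ E : Set ℂ, E.Countable ∧ ∀ z : ℂ, z ∉ E → z ∉ JuliaHerman f →
        ∀ᶠ n in atTop, Attracted (g n) (OnePoint.some z)) ∧
      ∀ ε : ℝ, 0 < ε → ∀ᶠ n in atTop,
        sphericalArea {z : ℂ | ¬ Attracted (g n) (OnePoint.some z)} ≤
          sphericalArea (JuliaHerman f) + ENNReal.ofReal ε := by
  have hd1 : 1 ≤ d := by omega
  obtain ⟨h1, h2⟩ := PQ SP d hd1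
  obtain ⟨x₀, hnd, hx0, hx1, hfe⟩ := h2 P Q hPQ hdeg
  have hfx : f = sp x₀ := hfe f hf.1 hf.2
  obtain ⟨X, E, hX, hXn, hE, hatt⟩ := Pool.Agent.Q90.RB.all_basins
    (Pool.Agent.W63.REQ2SURL.task Pool.Agent.W378.Q2INJ.task) d x₀ hd hnd
  have harea := Pool.Agent.Q90.RB.area_all hd hXn hE hatt
  obtain ⟨-, -, hco0, hhi0, -⟩ := h1 x₀ hnd
  have hconv : ∀ (i : Fin 2) (j : ℕ),
      Tendsto (fun n => (pol (X n) i).coeff j) atTop (𝓝 ((pol x₀ i).coeff j)) := by
    intro i j
    by_cases hj : d < j
    · have e : ∀ n, (pol (X n) i).coeff j = 0 := fun n => (h1 (X n) (hXn n)).2.2.2.1 i j hj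
      rw [hhi0 i j hj]
      simp only [e]
      exact tendsto_const_nhds
    · have e : ∀ n, (pol (X n) i).coeff j = X n (i, ⟨j, by omega⟩) := fun n =>
        (h1 (X n) (hXn n)).2.2.1 i ⟨j, by omega⟩
      have e0 : (pol x₀ i).coeff j = x₀ (i, ⟨j, by omega⟩) := hco0 i ⟨j, by omega⟩
      rw [e0]
      simp only [e]
      exact (continuous_apply _).tendsto x₀ |>.comp hX
  refine ⟨fun n => pol (X n) 0, fun n => pol (X n) 1, fun n => sp (X n), fun n => ?_,
    fun i => ⟨?_, ?_⟩, ⟨E, hE, fun z hz hJ => ?_⟩, fun ε hε => ?_⟩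
  · obtain ⟨hcop, hmax, -, -, hev⟩ := h1 (X n) (hXn n)
    exact ⟨hcop, hmax, (SP d (X n) hd1 (hXn n)).1, hev⟩
  · rw [← hx0]
    exact hconv 0 i
  · rw [← hx1]
    exact hconv 1 i
  · rw [hfx] at hJ
    exact hatt z hz hJ
  · rw [hfx]
    exact harea ε hε

end Pool.Agent.Results.MP_8f2e1c_an.IndifferentBasins
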