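import Mathlib
import Pool.Agent.Q189.CR.E

/-!
# The zero-one law for the hyperbolicity of the rational maps `R ∘ T_n`, `T_n` the Chebyshev
polynomials
-/

set_option autoImplicit false

open Set Filter Topology Polynomial

namespace Pool.Agent.Results.MP_8f2e1c_an.RationalChebyshevZeroOneLaw

/-- The orbit of `c` under `f` converges to an attracting periodic cycle (the notion used in the
frozen statement `S05373`). -/
def Attracted (f : OnePoint ℂ → OnePoint ℂ) (c : OnePoint ℂ) : Prop :=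
  ∃ z : OnePoint ℂ, ∃ n : ℕ, 0 < n ∧ f^[n] z = z ∧
    (∃ U ∈ nhds z, ∀ w ∈ U,
      Filter.Tendsto (fun k : ℕ => f^[n * k] w) Filter.atTop (nhds z)) ∧
    Filter.Tendsto (fun k : ℕ => f^[n * k] c) Filter.atTop (nhds z)

/-- `f` is the continuous map of the Riemann sphere given by `P / Q`. -/
def SphereMap (P Q : ℂ[X]) (f : OnePoint ℂ → OnePoint ℂ) : Prop :=
  Continuous f ∧ ∀ z : ℂ, Q.eval z ≠ 0 →
    f (OnePoint.some z) = OnePoint.some (P.eval z / Q.eval z)

/-- `P / Q` is in lowest terms and every critical point (point of the Riemann sphere where the map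
is not locally injective) has an orbit converging to an attracting periodic cycle, as in the frozen
statement `S05373`. -/
def Hyperbolic (P Q : ℂ[X]) : Prop :=
  IsCoprime P Q ∧ ∃ f : OnePoint ℂ → OnePoint ℂ, SphereMap P Q f ∧
    ∀ c : OnePoint ℂ, (¬ ∃ U ∈ nhds c, Set.InjOn f U) → Attracted f c

/-- The Chebyshev polynomial of degree `n`, `T_n (cos θ) = cos (n θ)`. -/
noncomputable def T (n : ℕ) : ℂ[X] := Chebyshev.T ℂ n

/-- The map `z ↦ P (T_n z) / Q (T_n z)` on the plane (it is only used at points which are not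
poles). -/
noncomputable def step (P Q : ℂ[X]) (n : ℕ) (z : ℂ) : ℂ :=
  P.eval ((T n).eval z) / Q.eval ((T n).eval z)

/-- The numerator of the derivative of `P / Q`. -/
noncomputable def wronskian (P Q : ℂ[X]) : ℂ[X] := derivative P * Q - P * derivative Q

/-- `x` belongs to the segment `[-1, 1]`. -/
def InSegment (x : ℂ) : Prop := ∃ t : ℝ, |t| ≤ 1 ∧ x = t

/-- `P / Q` is a rational map in lowest terms, of degree at least one, whose value at infinity is
not in the segment `[-1, 1]` (it may be infinity), and which maps only finitely many points of the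
segment into the segment. -/
def Admissible (P Q : ℂ[X]) : Prop :=
  IsCoprime P Q ∧ 0 < max P.natDegree Q.natDegree ∧
  (Q.coeff (max P.natDegree Q.natDegree) = 0 ∨
    ¬ InSegment (P.coeff (max P.natDegree Q.natDegree) /
      Q.coeff (max P.natDegree Q.natDegree))) ∧
  {u : ℂ | InSegment u ∧ Q.eval u ≠ 0 ∧ InSegment (P.eval u / Q.eval u)}.Finite

/-- `v` is a finite value of `P / Q` at `1`, at `-1`, or at a zero of the derivative of `P / Q`. -/
def CriticalValue (P Q : ℂ[X]) (v : ℂ) : Prop :=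
  (Q.eval 1 ≠ 0 ∧ v = P.eval 1 / Q.eval 1) ∨ (Q.eval (-1) ≠ 0 ∧ v = P.eval (-1) / Q.eval (-1)) ∨
    ∃ y : ℂ, (wronskian P Q).eval y = 0 ∧ Q.eval y ≠ 0 ∧ v = P.eval y / Q.eval y

/-- `x` is the cosine of a rational multiple of `π`. -/
def RationalCosine (x : ℂ) : Prop := ∃ r : ℚ, x = Complex.cos (r * Real.pi)

/-- The orbit of some critical value `v` under `P (T_n) / Q (T_n)` consists of cosines of rational
multiples of `π` and contains neither poles nor critical points (the critical points are the points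
`x` where the derivative of `P / Q` vanishes at `T_n x` and the points `x ≠ ± 1` with
`T_n x = ± 1`). -/
def Resonant (P Q : ℂ[X]) (n : ℕ) : Prop :=
  ∃ v : ℂ, CriticalValue P Q v ∧ ∀ j : ℕ, RationalCosine ((step P Q n)^[j] v) ∧
    Q.eval ((T n).eval ((step P Q n)^[j] v)) ≠ 0 ∧
    (wronskian P Q).eval ((T n).eval ((step P Q n)^[j] v)) ≠ 0 ∧
    (((T n).eval ((step P Q n)^[j] v)) ^ 2 = 1 → ((step P Q n)^[j] v) ^ 2 = 1)

/-- The orbit of some critical value under `P (T_n) / Q (T_n)` leaves the cosines of rational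
multiples of `π`, before it meets a pole, at a point of the segment `[-1, 1]` whose image is finite
and at distance at most `δ` from a point of the segment. -/
def Exceptional (P Q : ℂ[X]) (δ : ℝ) (n : ℕ) : Prop :=
  ∃ v : ℂ, CriticalValue P Q v ∧ ∃ j : ℕ,
    (∀ i < j, RationalCosine ((step P Q n)^[i] v) ∧
      Q.eval ((T n).eval ((step P Q n)^[i] v)) ≠ 0) ∧
    InSegment ((step P Q n)^[j] v) ∧ ¬ RationalCosine ((step P Q n)^[j] v) ∧
    Q.eval ((T n).eval ((step P Q n)^[j] v)) ≠ 0 ∧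
    ∃ t : ℝ, |t| ≤ 1 ∧ ‖(step P Q n)^[j + 1] v - t‖ ≤ δ

/-- The set of the `n` such that `P (T_n) / Q (T_n)` is hyperbolic has natural density `q`. -/
def HasDensity (P Q : ℂ[X]) (q : ℝ) : Prop :=
  Tendsto (fun N : ℕ => (({n : ℕ | n < N ∧
    Hyperbolic (P.comp (T n)) (Q.comp (T n))}.ncard : ℕ) : ℝ) / N) atTop (𝓝 q)

/-- Let `R = P / Q` be an admissible rational map. (1) The set of the `n` for which `R ∘ T_n` is
hyperbolic has a natural density, which is rational. (2) If none of the finite ones among `R(1)`,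
`R(-1)` and the critical values of `R` is the cosine of a rational multiple of `π`, the density is
one. (3) There are `M ≥ 1`, `K`, `n₀` and `C` such that: being resonant is a property of `n` modulo
`M`; for `n ≥ n₀` resonant, `R ∘ T_n` is not hyperbolic; for `n ≥ n₀` not resonant and not
exceptional (with `δ = C / n`), `R ∘ T_n` is hyperbolic; for every `L`, all windows of length `L` far
enough out contain at most `K` exceptional `n`; the density is the proportion of nonresonant residues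
modulo `M`. (4) The last condition of admissibility holds whenever `R` is not a real rational
function. (5) For the Moebius map `R` with `1 ↦ -1`, `-1 ↦ i`, `2 ↦ ∞` the density is `1 / 2`. -/
theorem result :
    (∀ P Q : ℂ[X], Admissible P Q → ∃ q : ℚ, HasDensity P Q q) ∧
    (∀ P Q : ℂ[X], Admissible P Q → (∀ v : ℂ, CriticalValue P Q v → ¬ RationalCosine v) →
      HasDensity P Q 1) ∧
    (∀ P Q : ℂ[X], Admissible P Q →
      ∃ M K n₀ : ℕ, ∃ C : ℝ, 0 < M ∧
        (∀ n m : ℕ, n % M = m % M → (Resonant P Q n ↔ Resonant P Q m)) ∧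
        (∀ n : ℕ, n₀ ≤ n → Resonant P Q n → ¬ Hyperbolic (P.comp (T n)) (Q.comp (T n))) ∧
        (∀ n : ℕ, n₀ ≤ n → ¬ Resonant P Q n → ¬ Exceptional P Q (C / n) n →
          Hyperbolic (P.comp (T n)) (Q.comp (T n))) ∧
        (∀ L : ℕ, ∃ N₀ : ℕ, ∀ N : ℕ, N₀ ≤ N →
          {n : ℕ | (N ≤ n ∧ n < N + L) ∧ Exceptional P Q (C / n) n}.ncard ≤ K) ∧
        HasDensity P Q (({a : ℕ | a < M ∧ ¬ Resonant P Q a}.ncard : ℝ) / M)) ∧
    (∀ P Q : ℂ[X], P * Q.map (starRingEnd ℂ) ≠ P.map (starRingEnd ℂ) * Q →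
      {u : ℂ | InSegment u ∧ Q.eval u ≠ 0 ∧ InSegment (P.eval u / Q.eval u)}.Finite) ∧
    (Admissible (C ((1 + 3 * Complex.I) / 2) * X + C ((1 - 3 * Complex.I) / 2)) (X - C 2) ∧
      HasDensity (C ((1 + 3 * Complex.I) / 2) * X + C ((1 - 3 * Complex.I) / 2)) (X - C 2)
        (1 / 2)) := by
  have hH : ∀ (P Q : ℂ[X]) (n : ℕ),
      Pool.Agent.H762R2.Rt.Hyp (Pool.Agent.Q189.CR.num P n) (Pool.Agent.Q189.CR.num Q n) ↔
      Hyperbolic (P.comp (T n)) (Q.comp (T n)) := by
    intro P Q n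
    constructor
    · rintro ⟨a, g, b, c, d⟩
      exact ⟨a, g, ⟨b, c⟩, d⟩
    · rintro ⟨a, g, ⟨b, c⟩, d⟩
      exact ⟨a, g, b, c, d⟩
  have hset : ∀ (P Q : ℂ[X]) (N : ℕ), {n : ℕ | n < N ∧ Hyperbolic (P.comp (T n)) (Q.comp (T n))} =
      {n : ℕ | Pool.Agent.H762R2.Rt.Hyp (Pool.Agent.Q189.CR.num P n)
        (Pool.Agent.Q189.CR.num Q n)} ∩ Set.Iio N := by
    intro P Q N
    ext n
    simp only [Set.mem_ofPred_eq, Set.mem_inter_iff, Set.mem_Iio, hH]
    exact and_comm
  refine ⟨fun P Q ⟨hc, hD, ho, hZ⟩ => ?_, fun P Q ⟨hc, hD, ho, hZ⟩ hv => ?_,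
    fun P Q ⟨hc, hD, ho, hZ⟩ => ?_, fun P Q h => ?_, ?_, ?_⟩
  · obtain ⟨q, hq⟩ := Pool.Agent.Q189.CR.density hc hD ho hZ
    refine ⟨q, ?_⟩
    unfold HasDensity
    simp only [hset]
    exact hq
  · unfold HasDensity
    simp only [hset]
    exact Pool.Agent.Q189.CR.density_one hc hD ho hZ hv
  · obtain ⟨M, K, n₀, C, hM, h1, h2, h3, h4, h5⟩ := Pool.Agent.Q189.CR.law' hc hD ho hZ
    have hR : ∀ n, Pool.Agent.Q189.CR.Res P Q n ↔ Resonant P Q n := fun n => Iff.rfl
    have hE : ∀ δ n, Pool.Agent.Q189.CR.Exc P Q δ n ↔ Exceptional P Q δ n := fun δ n => Iff.rfl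
    simp only [hH] at h2 h3
    refine ⟨M, K, n₀, C, hM, h1, h2, h3, fun L => ?_, ?_⟩
    · obtain ⟨N₀, hN₀⟩ := h4 L
      refine ⟨N₀, fun N hN => ?_⟩
      convert hN₀ N hN using 2
      ext n
      simp only [Set.mem_ofPred_eq, Set.mem_inter_iff, Set.mem_Ico]
      exact and_comm
    · unfold HasDensity
      simp only [hset]
      exact h5
  · exact Pool.Agent.Q189.CR.FZ_of h
  · exact ⟨Pool.Agent.Q189.CR.ex_cop, by
      have := Pool.Agent.Q189.CR.ex_max
      unfold Pool.Agent.Q189.CR.exP Pool.Agent.Q189.CR.exQ Pool.Agent.Q189.CR.al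
        Pool.Agent.Q189.CR.be at this
      rw [this]; norm_num, Pool.Agent.Q189.CR.ex_off, Pool.Agent.Q189.CR.ex_FZ⟩
  · unfold HasDensity
    simp only [hset]
    exact Pool.Agent.Q189.CR.ex_density

end Pool.Agent.Results.MP_8f2e1c_an.RationalChebyshevZeroOneLaw
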