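import Mathlib
import Pool.Agent.Q186.RI.Final

/-!
# Hyperbolicity of the rational maps `R (g^n (z)) + s`

For a polynomial `g` and an arbitrary rational map `R = P / Q`, the maps `R ∘ g^n + s`, where `g^n` is
the `n`-th iterate. If every critical point of `g` escapes, is attracted by a sink or lands on a
repelling cycle, then for every denominator `Q` and almost every numerator `P` the map `P / Q ∘ g^n`
is hyperbolic for all large `n`. If `g` is hyperbolic then the exceptional parameters `s` form a set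
of dimension less than two, and for fixed `n` their area is exponentially small.
-/

set_option autoImplicit false

open MeasureTheory Filter Topology Polynomial

namespace Pool.Agent.Results.MP_8f2e1c_an.RationalIterates

/-- The polynomial as a self-map of the plane. -/
def map (T : ℂ[X]) : ℂ → ℂ := fun z : ℂ => T.eval z

/-- The orbit of `z` escapes to infinity. -/
def Escapes (T : ℂ[X]) (z : ℂ) : Prop :=
  Tendsto (fun k : ℕ => ‖(map T)^[k] z‖) atTop atTop

/-- The orbit of `z` is attracted by a sink (attracting periodic point) of `T` in the plane. -/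
def Attracted (T : ℂ[X]) (z : ℂ) : Prop :=
  ∃ n : ℕ, 0 < n ∧ ∃ x : ℂ, (map T)^[n] x = x ∧ ‖deriv ((map T)^[n]) x‖ < 1 ∧
    Tendsto (fun k : ℕ => (map T)^[n * k] z) atTop (𝓝 x)

/-- The orbit of `c` lands on a repelling periodic point. -/
def Lands (T : ℂ[X]) (c : ℂ) : Prop :=
  ∃ k p : ℕ, 0 < p ∧ (map T)^[p] ((map T)^[k] c) = (map T)^[k] c ∧
    1 < ‖deriv ((map T)^[p]) ((map T)^[k] c)‖

/-- The points of the plane which neither escape nor are attracted by a sink. -/
def bad (T : ℂ[X]) : Set ℂ := {z : ℂ | ¬ (Escapes T z ∨ Attracted T z)}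

/-- `a` is an attracting periodic point of `T` in the plane. -/
def IsSink (T : ℂ[X]) (a : ℂ) : Prop :=
  ∃ p : ℕ, 0 < p ∧ (map T)^[p] a = a ∧ ‖deriv ((map T)^[p]) a‖ < 1

/-- `P / Q` is in lowest terms and every critical point (point of the Riemann sphere where the map
is not locally injective) has an orbit converging to an attracting periodic cycle. This is word
for word the condition of the frozen statement `S05373`. -/
def Hyperbolic (P Q : Polynomial ℂ) : Prop :=
  IsCoprime P Q ∧ ∃ f : OnePoint ℂ → OnePoint ℂ, Continuous f ∧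
    (∀ z : ℂ, Q.eval z ≠ 0 →
      f (OnePoint.some z) = OnePoint.some (P.eval z / Q.eval z)) ∧
    ∀ c : OnePoint ℂ, (¬ ∃ U ∈ nhds c, Set.InjOn f U) →
      ∃ z : OnePoint ℂ, ∃ n : ℕ, 0 < n ∧ f^[n] z = z ∧
        (∃ U ∈ nhds z, ∀ w ∈ U,
          Filter.Tendsto (fun k : ℕ => f^[n * k] w) Filter.atTop (nhds z)) ∧
        Filter.Tendsto (fun k : ℕ => f^[n * k] c) Filter.atTop (nhds z)

/-- The numerator of `P / Q ∘ g^n + s`. -/
noncomputable def num (g P Q : ℂ[X]) (n : ℕ) (s : ℂ) : ℂ[X] := (P + C s * Q).comp (g.comp^[n] X)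

/-- The denominator of `P / Q ∘ g^n + s`. -/
noncomputable def den (g Q : ℂ[X]) (n : ℕ) : ℂ[X] := Q.comp (g.comp^[n] X)

/-- The numerator of the derivative of `P / Q`. -/
noncomputable def wronskian (P Q : ℂ[X]) : ℂ[X] := derivative P * Q - P * derivative Q

/-- The degree of `P / Q`. -/
def deg (P Q : ℂ[X]) : ℕ := max P.natDegree Q.natDegree

/-- The marked values of `R = P / Q` and `g`: the finite values of `R` at the zeros of its derivative,
at the points `g^k (c)`, `k ≥ 1`, `c` a critical point of `g`, at the sinks of `g` in the plane, and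
at infinity. -/
def Marked (g P Q : ℂ[X]) : Set ℂ :=
  {m | (∃ y : ℂ, (wronskian P Q).eval y = 0 ∧ Q.eval y ≠ 0 ∧ m = P.eval y / Q.eval y) ∨
    (∃ (c : ℂ) (k : ℕ), (derivative g).eval c = 0 ∧ 1 ≤ k ∧ Q.eval ((map g)^[k] c) ≠ 0 ∧
      m = P.eval ((map g)^[k] c) / Q.eval ((map g)^[k] c)) ∨
    (∃ a : ℂ, IsSink g a ∧ Q.eval a ≠ 0 ∧ m = P.eval a / Q.eval a) ∨
    (Q.coeff (deg P Q) ≠ 0 ∧ m = P.coeff (deg P Q) / Q.coeff (deg P Q))}

/-- `P / Q` has no pole at infinity and at the sinks of `g`. -/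
def NoPoles (g P Q : ℂ[X]) : Prop :=
  (∀ a : ℂ, IsSink g a → Q.eval a ≠ 0) ∧ Q.coeff (deg P Q) ≠ 0

/-- The polynomial with the given coefficients. -/
noncomputable def poly {D : ℕ} (a : Fin (D + 1) → ℂ) : ℂ[X] :=
  ∑ i : Fin (D + 1), C (a i) * X ^ (i : ℕ)

/-- Let `g` be a polynomial of degree at least two.

(0) `R ∘ g^n + s` has degree `deg R * (deg g) ^ n` for all `s`, in lowest terms if `R` is.

(1) Let every critical point of `g` escape, be attracted by a sink, or land on a repelling periodic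
point. Let `R = P / Q` be in lowest terms, of degree at least one. If `m + s` escapes or is attracted
by a sink of `g` for every marked value `m`, then `R ∘ g^n + s` is hyperbolic for all large `n`; this
condition holds for almost every `s`.

(2) For such `g`, for every denominator `Q ≠ 0` of degree at most `D`, `D ≥ 1`, and for almost every
`a` in `ℂ ^ (D + 1)`, the map `P / Q ∘ g^n`, where `P` has the coefficients `a`, is hyperbolic for all
large `n`.

(3) Let `g` be hyperbolic. The set `bad g` has Hausdorff dimension less than two, and for every `R` as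
in (1) the set of the `s` for which `R ∘ g^n + s` is not hyperbolic for infinitely many `n` has
dimension at most that of `bad g`.

(4) Let `g` be hyperbolic. There is `c > 0`, depending only on `g`, such that for all `R` as in (1):
for every `S` and all large `n`, the set of the `s` with `|s| ≤ S` for which `R ∘ g^n + s` is not
hyperbolic has area at most `exp (- c n)`; the same holds for the set of all such `s` in the plane,
if `R` has no pole at infinity and at the sinks of `g`; and for all large `n` there is `s` with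
`|s| ≤ exp (- c n)` for which `R ∘ g^n + s` is hyperbolic. -/
theorem result (g : ℂ[X]) (hg : 2 ≤ g.natDegree) :
    (∀ (P Q : ℂ[X]) (n : ℕ) (s : ℂ), deg (num g P Q n s) (den g Q n) = deg P Q * g.natDegree ^ n ∧
      (IsCoprime P Q → IsCoprime (num g P Q n s) (den g Q n))) ∧
    ((∀ c : ℂ, (derivative g).eval c = 0 → (Escapes g c ∨ Attracted g c) ∨ Lands g c) →
      (∀ P Q : ℂ[X], IsCoprime P Q → 1 ≤ deg P Q →
        (∀ s : ℂ, (∀ m ∈ Marked g P Q, Escapes g (m + s) ∨ Attracted g (m + s)) →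
          ∀ᶠ n : ℕ in atTop, Hyperbolic (num g P Q n s) (den g Q n)) ∧
        (∀ᵐ s : ℂ, ∀ m ∈ Marked g P Q, Escapes g (m + s) ∨ Attracted g (m + s))) ∧
      ∀ (D : ℕ) (Q : ℂ[X]), 1 ≤ D → Q ≠ 0 → Q.natDegree ≤ D → ∀ᵐ a : Fin (D + 1) → ℂ,
        ∀ᶠ n : ℕ in atTop, Hyperbolic ((poly a).comp (g.comp^[n] X)) (Q.comp (g.comp^[n] X))) ∧
    ((∀ c : ℂ, (derivative g).eval c = 0 → Escapes g c ∨ Attracted g c) →
      (∃ d : ℝ, d < 2 ∧ dimH (bad g) ≤ ENNReal.ofReal d) ∧
      (∀ P Q : ℂ[X], IsCoprime P Q → 1 ≤ deg P Q →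
        dimH {s : ℂ | ¬ ∀ᶠ n : ℕ in atTop, Hyperbolic (num g P Q n s) (den g Q n)} ≤
          dimH (bad g)) ∧
      ∃ c : ℝ, 0 < c ∧ ∀ P Q : ℂ[X], IsCoprime P Q → 1 ≤ deg P Q →
        (∀ S : ℝ, ∃ n₁ : ℕ, ∀ n : ℕ, n₁ ≤ n →
          volume {s ∈ Metric.closedBall (0 : ℂ) S | ¬ Hyperbolic (num g P Q n s) (den g Q n)} ≤
            ENNReal.ofReal (Real.exp (-(c * n)))) ∧
        (NoPoles g P Q → ∃ n₁ : ℕ, ∀ n : ℕ, n₁ ≤ n →
          volume {s : ℂ | ¬ Hyperbolic (num g P Q n s) (den g Q n)} ≤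
            ENNReal.ofReal (Real.exp (-(c * n)))) ∧
        ∃ n₁ : ℕ, ∀ n : ℕ, n₁ ≤ n → ∃ s : ℂ, ‖s‖ ≤ Real.exp (-(c * n)) ∧
          Hyperbolic (num g P Q n s) (den g Q n)) := by
  refine ⟨fun P Q n s => ⟨Pool.Agent.Q186.RI.deg_eq n s, fun hc =>
    Pool.Agent.Q186.RI.cop hc n s⟩, fun hcr => ?_, fun hyp => ?_⟩
  · have hgl : Pool.Agent.Q186.AZ.TC g := hcr
    exact ⟨fun P Q hc hd => ⟨fun s hs => Pool.Agent.Q186.RI.det hg hgl hc hd hs,
      Pool.Agent.Q186.RI.ae_marks hg hgl hc hd⟩,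
      fun D Q hD hQ hQD => Pool.Agent.Q186.RI.ae_num hg hgl hD hQ hQD⟩
  · have hyp' : Pool.Agent.H400R3.HI.Hyp g := hyp
    have hgl : Pool.Agent.Q186.AZ.TC g := fun c hc => Or.inl (hyp c hc)
    obtain ⟨d, -, hd2, hdim, -⟩ := Pool.Agent.Q186.AZ.rate hg hyp'
    obtain ⟨c, hc, h⟩ := Pool.Agent.Q186.RI.rate_near hg hyp'
    refine ⟨⟨d, hd2, hdim⟩, fun P Q hcP hd => Pool.Agent.Q186.RI.dim_rat hg hgl hcP hd, c, hc,
      fun P Q hcP hd => ?_⟩
    exact h P Q hcP hd

end Pool.Agent.Results.MP_8f2e1c_an.RationalIterates
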