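import Mathlib
import Pool.Agent.TH864.ZO.ZN

/-!
# The zero-one law for the hyperbolicity of the rational maps `P (z ^ n) / Q (z ^ n)`
-/

set_option autoImplicit false

open Set Filter Topology

namespace Pool.Agent.Results.MP_8f2e1c_an.RationalPowerZeroOneLaw

/-- The orbit of `c` under `f` converges to an attracting periodic cycle (the notion used in the
frozen statement `S05373`). -/
def Attracted (f : OnePoint ℂ → OnePoint ℂ) (c : OnePoint ℂ) : Prop :=
  ∃ z : OnePoint ℂ, ∃ n : ℕ, 0 < n ∧ f^[n] z = z ∧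
    (∃ U ∈ nhds z, ∀ w ∈ U,
      Filter.Tendsto (fun k : ℕ => f^[n * k] w) Filter.atTop (nhds z)) ∧
    Filter.Tendsto (fun k : ℕ => f^[n * k] c) Filter.atTop (nhds z)

/-- `f` is the continuous map of the Riemann sphere given by `P / Q`. -/
def SphereMap (P Q : Polynomial ℂ) (f : OnePoint ℂ → OnePoint ℂ) : Prop :=
  Continuous f ∧ ∀ z : ℂ, Q.eval z ≠ 0 →
    f (OnePoint.some z) = OnePoint.some (P.eval z / Q.eval z)

/-- `P / Q` is in lowest terms and every critical point (point of the Riemann sphere where the map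
is not locally injective) has an orbit converging to an attracting periodic cycle, as in the frozen
statement `S05373`. -/
def Hyperbolic (P Q : Polynomial ℂ) : Prop :=
  IsCoprime P Q ∧ ∃ f : OnePoint ℂ → OnePoint ℂ, SphereMap P Q f ∧
    ∀ c : OnePoint ℂ, (¬ ∃ U ∈ nhds c, Set.InjOn f U) → Attracted f c

/-- `P (z ^ n)`. -/
noncomputable def pw (n : ℕ) (P : Polynomial ℂ) : Polynomial ℂ := P.comp (Polynomial.X ^ n)

/-- The map `z ↦ P (z ^ n) / Q (z ^ n)` on the plane (value `0` at the poles, by convention). -/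
noncomputable def step (P Q : Polynomial ℂ) (n : ℕ) (z : ℂ) : ℂ :=
  P.eval (z ^ n) / Q.eval (z ^ n)

/-- The numerator of the derivative of `P / Q`. -/
noncomputable def wronskian (P Q : Polynomial ℂ) : Polynomial ℂ :=
  Polynomial.derivative P * Q - P * Polynomial.derivative Q

/-- `v` is a finite critical value of all the maps `P (z ^ n) / Q (z ^ n)`, `n ≥ 2`: the value of
`P / Q` at `0`, at infinity, or at a zero of the derivative of `P / Q`. -/
def CriticalValue (P Q : Polynomial ℂ) (v : ℂ) : Prop :=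
  (Q.eval 0 ≠ 0 ∧ v = P.eval 0 / Q.eval 0) ∨
  (Q.coeff (max P.natDegree Q.natDegree) ≠ 0 ∧
    v = P.coeff (max P.natDegree Q.natDegree) / Q.coeff (max P.natDegree Q.natDegree)) ∨
  ∃ y : ℂ, (wronskian P Q).eval y = 0 ∧ Q.eval y ≠ 0 ∧ v = P.eval y / Q.eval y

/-- `x` is a root of unity. -/
def RootOfUnity (x : ℂ) : Prop := ∃ k : ℕ, 0 < k ∧ x ^ k = 1

/-- The orbit of some critical value under `P (z ^ n) / Q (z ^ n)` consists of roots of unity, none
of which is a critical point. -/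
def Resonant (P Q : Polynomial ℂ) (n : ℕ) : Prop :=
  ∃ v : ℂ, CriticalValue P Q v ∧ ∀ j : ℕ, RootOfUnity ((step P Q n)^[j] v) ∧
    (wronskian P Q).eval (((step P Q n)^[j] v) ^ n) ≠ 0

/-- The orbit of some critical value leaves the roots of unity at a point `x` of the unit circle
with `|P (x ^ n)|` and `|Q (x ^ n)|` at distance at most `δ`. -/
def Exceptional (P Q : Polynomial ℂ) (δ : ℝ) (n : ℕ) : Prop :=
  ∃ v : ℂ, CriticalValue P Q v ∧ ∃ j : ℕ, (∀ i < j, RootOfUnity ((step P Q n)^[i] v)) ∧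
    ‖(step P Q n)^[j] v‖ = 1 ∧ ¬ RootOfUnity ((step P Q n)^[j] v) ∧
    |‖P.eval (((step P Q n)^[j] v) ^ n)‖ - ‖Q.eval (((step P Q n)^[j] v) ^ n)‖| ≤ δ

/-- Let `P / Q` be a rational map in lowest terms, of degree at least one, with `|P / Q|` not
identically one on the unit circle. There are `M ≥ 1`, `K`, `n₀`, `C` such that: being resonant is
a property of `n` modulo `M`; for `n ≥ n₀` resonant, `P (z ^ n) / Q (z ^ n)` is not hyperbolic; for
`n ≥ n₀` neither resonant nor exceptional (with `δ = C log n / n`), it is hyperbolic; for every `L`,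
all windows of length `L` far enough out contain at most `K` exceptional `n`; and the set of the
`n` for which `P (z ^ n) / Q (z ^ n)` is hyperbolic has a natural density, the proportion of the
nonresonant residues modulo `M`. -/
theorem result (P Q : Polynomial ℂ) (hc : IsCoprime P Q)
    (hd : 1 ≤ max P.natDegree Q.natDegree)
    (hne : ∃ u : ℂ, ‖u‖ = 1 ∧ ‖P.eval u‖ ≠ ‖Q.eval u‖) :
    ∃ M K n₀ : ℕ, ∃ C : ℝ, 0 < M ∧
      (∀ n m : ℕ, n % M = m % M → (Resonant P Q n ↔ Resonant P Q m)) ∧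
      (∀ n : ℕ, n₀ ≤ n → Resonant P Q n → ¬ Hyperbolic (pw n P) (pw n Q)) ∧
      (∀ n : ℕ, n₀ ≤ n → ¬ Resonant P Q n → ¬ Exceptional P Q (C * (Real.log n / n)) n →
        Hyperbolic (pw n P) (pw n Q)) ∧
      (∀ L : ℕ, ∃ N₀ : ℕ, ∀ N : ℕ, N₀ ≤ N →
        {n : ℕ | (N ≤ n ∧ n < N + L) ∧
          Exceptional P Q (C * (Real.log n / n)) n}.ncard ≤ K) ∧
      Tendsto (fun N : ℕ =>
        (({n : ℕ | n < N ∧ Hyperbolic (pw n P) (pw n Q)}.ncard : ℕ) : ℝ) / N) atTop
        (𝓝 (({a : ℕ | a < M ∧ ¬ Resonant P Q a}.ncard : ℝ) / M)) := by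
  obtain ⟨M, K, n₀, C, hM, h1, h2, h3, h4, h5⟩ :=
    Pool.Agent.TH864.ZO.zero_one hc rfl (by omega : 0 < max P.natDegree Q.natDegree) hne
  have hst : ∀ n, Pool.Agent.TH864.ZO.st P Q n 1 = step P Q n := by
    intro n
    funext y
    simp [Pool.Agent.TH864.ZO.st, step]
  have hR : ∀ n, Pool.Agent.TH864.ZO.Res P Q (max P.natDegree Q.natDegree) n ↔
      Resonant P Q n := by
    intro n
    unfold Pool.Agent.TH864.ZO.Res Resonant
    rw [hst]
    exact Iff.rfl
  have hE : ∀ δ n, Pool.Agent.TH864.ZO.Exc P Q (max P.natDegree Q.natDegree) δ n ↔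
      Exceptional P Q δ n := by
    intro δ n
    unfold Pool.Agent.TH864.ZO.Exc Exceptional
    rw [hst]
    exact Iff.rfl
  have hH : ∀ n, Pool.Agent.H762R2.Rt.Hyp (Polynomial.expand ℂ n P) (Polynomial.expand ℂ n Q) ↔
      Hyperbolic (pw n P) (pw n Q) := by
    intro n
    have e1 : Polynomial.expand ℂ n P = pw n P := Polynomial.expand_eq_comp_X_pow n
    have e2 : Polynomial.expand ℂ n Q = pw n Q := Polynomial.expand_eq_comp_X_pow n
    rw [e1, e2]
    constructor
    · rintro ⟨a, g, b, c, d⟩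
      exact ⟨a, g, ⟨b, c⟩, d⟩
    · rintro ⟨a, g, ⟨b, c⟩, d⟩
      exact ⟨a, g, b, c, d⟩
  simp only [hR, hE, hH] at h1 h2 h3 h4 h5
  refine ⟨M, K, n₀, C, hM, h1, h2, h3, fun L => ?_, ?_⟩
  · obtain ⟨N₀, hN₀⟩ := h4 L
    refine ⟨N₀, fun N hN => ?_⟩
    convert hN₀ N hN using 2
    ext n
    simp only [Set.mem_ofPred_eq, Set.mem_inter_iff, Set.mem_Ico]
    exact and_comm
  · have hset : ∀ N : ℕ, {n : ℕ | n < N ∧ Hyperbolic (pw n P) (pw n Q)} =
        {n : ℕ | Hyperbolic (pw n P) (pw n Q)} ∩ Set.Iio N := by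
      intro N
      ext n
      simp only [Set.mem_ofPred_eq, Set.mem_inter_iff, Set.mem_Iio]
      exact and_comm
    simp only [hset]
    exact h5

end Pool.Agent.Results.MP_8f2e1c_an.RationalPowerZeroOneLaw
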